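import Pool.Agent.H95.INS.Targets2

open MeasureTheory ProbabilityTheory
open scoped ENNReal

set_option autoImplicit false

namespace Pool.Agent.H30.INS

open Pool.Agent.H95.INS Pool.Agent.H99.NS Pool.Agent.H22.LPP

theorem pf_MAR : T_MAR := by
  intro D E a hE ha ha'
  have hS : MeasurableSet {p : Env × Env | E (splice (Bx D) p.1 p.2)} :=
    measurable_splice (Bx D) hE
  have hF : Measurable (fun out : Env => PE D.q {ω | E (splice (Bx D) ω out)}) :=
    measurable_measure_prodMk_right hS
  have hint : ∫⁻ out, PE D.q {ω | E (splice (Bx D) ω out)} ∂(PE D.q) = PE D.q {ω | E ω} := by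
    have h1 := (mp_splice D.q (Bx D)).measure_preimage hE.nullMeasurableSet
    rw [← h1]
    exact (Measure.prod_apply_symm (μ := PE D.q) (ν := PE D.q) hS).symm
  have h2 : {out | ¬ Pin D out E ≤ a} ⊆
      {out | a ≤ PE D.q {ω | E (splice (Bx D) ω out)}} := by
    intro out h
    exact (not_le.mp h).le
  refine (measure_mono h2).trans ?_
  refine (meas_ge_le_lintegral_div hF.aemeasurable ha ha').trans ?_
  rw [hint]

end Pool.Agent.H30.INS
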