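import Pool.Agent.H95.INS.Targets2

open MeasureTheory ProbabilityTheory
open scoped ENNReal

set_option autoImplicit false

namespace Pool.Agent.H30.INS

open Pool.Agent.H95.INS Pool.Agent.H99.NS Pool.Agent.H22.LPP

theorem lgeo_of_lam (h_LAM : B_LAM) (ω : Env) (u v : Site) (h : Reach u v) :
    LGeo ω u v (Lam ω u v) :=
  ⟨(h_LAM ω u v h).1, fun g' hg' r h1 h2 => (h_LAM ω u v h).2 g' hg' r h1 h2⟩

theorem pf_PAL (h_DET : T_DET) (h_IN1 : T_IN1) (h_LAM : B_LAM) : T_PAL := by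
  intro D out o e hD hE hG hLO
  obtain ⟨hFC, hRF, ω₀, γ, hO1, hO2, hO3⟩ := hG
  refine (h_IN1 D out o e hD hE hFC hRF hLO).trans (measure_mono ?_)
  intro ω hω
  obtain ⟨hEv, hRR⟩ := hω
  have hn := hD.n1
  have hag : Agree D (splice (Bx D) ω out) (splice (Bx D) ω₀ out) := by
    intro x hx
    rw [splice_of_not_mem _ _ hx, splice_of_not_mem _ _ hx]
  have hI := h_DET D (splice (Bx D) ω out) (splice (Bx D) ω₀ out) o e hD hag hE hEv hRR hO1 hO2
    γ hO3
  have hr : Reach (-(4 * D.n), 0) (4 * D.n, 0) := by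
    refine ⟨?_, ?_⟩
    · simp only [sub_self, abs_zero]
      omega
    · refine ⟨4 * D.n, ?_⟩
      simp only
      ring
  have h1 := hI.ga _ (lgeo_of_lam h_LAM (splice (Bx D) ω out) (-(4 * D.n), 0) (4 * D.n, 0) hr)
  have h2 := h1.2 _ (lgeo_of_lam h_LAM (splice (Bx D) ω out) o e hE.re) 0 (by omega) (by omega)
  have h3 := h1.1 0 (by omega) (by omega)
  change |Lam (splice (Bx D) ω out) o e 0| < D.A * D.w
  rw [h2]
  exact h3

end Pool.Agent.H30.INS
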