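import Pool.Agent.H95.INS.Targets2

open MeasureTheory ProbabilityTheory
open scoped ENNReal

set_option autoImplicit false

namespace Pool.Agent.H30.INS

open Pool.Agent.H95.INS Pool.Agent.H99.NS Pool.Agent.H22.LPP

theorem pf_PUB : T_PUB := by
  intro q cs hq hq1 hcs hIS ε hε
  obtain ⟨K₀, hK₀, hK⟩ := hIS ε hε
  refine ⟨K₀ + 1, by linarith, ?_⟩
  intro A K B H Y c hH hA hAH hc1 hc2
  have hH0 : 0 < H := by linarith
  have hcH : (9 : ℝ) / 10 * H ≤ c * H := mul_le_mul_of_nonneg_right hc1 hH0.le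
  obtain ⟨k₀, hk₀, hk⟩ := hK (2 * c * H) (by nlinarith) (16 * A) (by omega) (by
    push_cast
    nlinarith)
  refine ⟨k₀, hk₀, ?_⟩
  intro k X s t hkk hst
  have h1 := hk k hkk s
  have hR : ((16 * A : ℤ) : ℝ) = 16 * A := by push_cast; ring
  rw [hR] at h1
  refine le_trans (measure_mono ?_) h1
  rintro ω ⟨g, hg, hS, hX⟩
  have ht : t = s + 8 * 64 ^ (k - 1) := by omega
  have hle : s ≤ t := by
    have : (0 : ℤ) < 64 ^ (k - 1) := by positivity
    omega
  have hconn : Conn (s, g s) (t, g t) g := ⟨hg, rfl, rfl⟩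
  refine ⟨g s, g t, (hS s le_rfl hle).le, (hS t hle le_rfl).le, ?_, ?_⟩
  · have := hconn.reach hle
    rw [ht] at this ⊢
    exact this
  · have h2 := le_T ω (u := (s, g s)) (v := (t, g t)) hle hconn
    unfold Exc at hX
    rw [ht] at hX h2 ⊢
    simp only at h2
    have h3 : 2 * c * H / 2 * 4 ^ k = c * H * 4 ^ k := by ring
    rw [h3]
    linarith

end Pool.Agent.H30.INS
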